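import Pool.Agent.helper90.FL.Spec

set_option autoImplicit false

namespace Pool.Agent.helper90.FL

open Finset Polynomial
open scoped Classical

/-- The excess of `f` at `S`. -/
noncomputable def CN2_X {V E : Type} [Fintype E] (s t : E → V) {q : ℕ} (f : E → ZMod q)
    (S : Set V) : ZMod q :=
  ∑ e', ((if t e' ∈ S then f e' else 0) - (if s e' ∈ S then f e' else 0))

theorem CN2_sum {E : Type} [Fintype E] {q : ℕ} (f : E → ZMod q) (A : Finset E)
    (h : ∀ e, f e ≠ 0 ↔ e ∈ A) (p : E → Prop) :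
    ∑ e ∈ A.filter p, f e = ∑ e, if p e then f e else 0 := by
  rw [sum_filter]
  apply sum_subset (subset_univ A)
  intro e _ he
  have h0 : f e = 0 := by
    by_contra hne
    exact he ((h e).mp hne)
  simp [h0]

theorem CN2_iff {V E : Type} [Fintype E] (s t : E → V) {q : ℕ} (f : E → ZMod q)
    (A B : Finset E) (h : ∀ e, f e ≠ 0 ↔ e ∈ A) :
    IsF s t q A B f ↔ ∀ S : Set V, Cl s t B S → CN2_X s t f S = 0 := by
  have key : ∀ S : Set V, (∑ e ∈ A.filter (fun e => s e ∈ S), f e =
      ∑ e ∈ A.filter (fun e => t e ∈ S), f e) ↔ CN2_X s t f S = 0 := by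
    intro S
    rw [CN2_sum f A h, CN2_sum f A h]
    unfold CN2_X
    rw [sum_sub_distrib, sub_eq_zero]
    exact eq_comm
  constructor
  · intro hf S hS
    exact (key S).mp (hf.2 S hS)
  · intro hf
    exact ⟨h, fun S hS => (key S).mpr (hf S hS)⟩

theorem CN2_split {V E : Type} [Fintype E] (s t : E → V) {q : ℕ} (f : E → ZMod q)
    (S T : Set V) : CN2_X s t f S = CN2_X s t f (S ∩ T) + CN2_X s t f (S \ T) := by
  unfold CN2_X
  rw [← sum_add_distrib]
  apply sum_congr rfl
  intro e' _
  by_cases h1 : t e' ∈ S <;> by_cases h2 : t e' ∈ T <;> by_cases h3 : s e' ∈ S <;>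
    by_cases h4 : s e' ∈ T <;> simp [h1, h2, h3, h4]

theorem CN2_compl {V E : Type} [Fintype E] (s t : E → V) {q : ℕ} (f : E → ZMod q)
    (S : Set V) : CN2_X s t f Sᶜ + CN2_X s t f S = 0 := by
  unfold CN2_X
  rw [← sum_add_distrib]
  apply sum_eq_zero
  intro e' _
  by_cases h1 : t e' ∈ S <;> by_cases h3 : s e' ∈ S <;> simp [h1, h3]

theorem CN2_update {V E : Type} [Fintype E] (s t : E → V) {q : ℕ} (g : E → ZMod q)
    (e : E) (c : ZMod q) (hg : g e = 0) (S : Set V) :
    CN2_X s t (Function.update g e c) S =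
      CN2_X s t g S + ((if t e ∈ S then c else 0) - (if s e ∈ S then c else 0)) := by
  unfold CN2_X
  have h : ∀ e' : E, ((if t e' ∈ S then Function.update g e c e' else 0) -
      (if s e' ∈ S then Function.update g e c e' else 0)) =
      ((if t e' ∈ S then g e' else 0) - (if s e' ∈ S then g e' else 0)) +
      (if e' = e then ((if t e ∈ S then c else 0) - (if s e ∈ S then c else 0)) else 0) := by
    intro e'
    by_cases he : e' = e
    · subst he
      simp [hg]
    · rw [Function.update_of_ne he]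
      simp [he]
  rw [sum_congr rfl (fun e' _ => h e'), sum_add_distrib, sum_ite_eq' univ e]
  simp

theorem CN2_cl_compl {V E : Type} (s t : E → V) (B : Finset E) (S : Set V)
    (h : Cl s t B S) : Cl s t B Sᶜ := by
  intro e he
  have := h e he
  simp only [Set.mem_compl_iff]
  exact not_congr this

theorem CN2_cl_insert {V E : Type} (s t : E → V) (B : Finset E) (e : E) (S : Set V)
    (h : Cl s t B S) (he : s e ∈ S ↔ t e ∈ S) : Cl s t (insert e B) S := by
  intro e' he'
  rw [mem_insert] at he'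
  rcases he' with rfl | he'
  · exact he
  · exact h e' he'

theorem CN2_cl_sub {V E : Type} (s t : E → V) (B : Finset E) (e : E) (S : Set V)
    (h : Cl s t (insert e B) S) : Cl s t B S ∧ (s e ∈ S ↔ t e ∈ S) :=
  ⟨fun e' he' => h e' (mem_insert_of_mem he'), h e (mem_insert_self _ _)⟩

theorem CN2_cl_diff {V E : Type} (s t : E → V) (B : Finset E) (S T : Set V)
    (h : Cl s t B S) (h' : Cl s t B T) : Cl s t B (S \ T) := by
  intro e he
  have h1 := h e he
  have h2 := h' e he
  simp only [Set.mem_sdiff]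
  rw [h1, h2]

theorem CN2_ext {V E : Type} [Fintype E] (s t : E → V) {q : ℕ} (g : E → ZMod q)
    (B : Finset E) (e : E) (S0 : Set V) (hS0 : Cl s t B S0) (hs : s e ∈ S0) (ht : t e ∉ S0)
    (hg : g e = 0) (hflow : ∀ S : Set V, Cl s t (insert e B) S → CN2_X s t g S = 0) :
    ∀ S : Set V, Cl s t B S → CN2_X s t (Function.update g e (CN2_X s t g S0)) S = 0 := by
  have key : ∀ S : Set V, Cl s t B S → s e ∈ S → t e ∉ S → CN2_X s t g S = CN2_X s t g S0 := by
    intro S hS hsS htS
    have h1 : CN2_X s t g (S \ S0) = 0 := by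
      apply hflow
      apply CN2_cl_insert _ _ _ _ _ (CN2_cl_diff s t B S S0 hS hS0)
      simp [hs, htS]
    have h2 : CN2_X s t g (S0 \ S) = 0 := by
      apply hflow
      apply CN2_cl_insert _ _ _ _ _ (CN2_cl_diff s t B S0 S hS0 hS)
      simp [hsS, ht]
    rw [CN2_split s t g S S0, CN2_split s t g S0 S, h1, h2, Set.inter_comm]
  intro S hS
  rw [CN2_update s t g e _ hg]
  by_cases h1 : s e ∈ S
  · by_cases h2 : t e ∈ S
    · rw [hflow S (CN2_cl_insert _ _ _ _ _ hS (by simp [h1, h2]))]
      simp [h1, h2]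
    · rw [key S hS h1 h2]
      simp [h1, h2]
  · by_cases h2 : t e ∈ S
    · have h3 := key Sᶜ (CN2_cl_compl _ _ _ _ hS) (by simpa using h1) (by simpa using h2)
      have h4 := CN2_compl s t g S
      rw [h3] at h4
      simp only [h1, h2, if_true, if_false, sub_zero]
      rw [add_comm]
      exact h4
    · rw [hflow S (CN2_cl_insert _ _ _ _ _ hS (by simp [h1, h2]))]
      simp [h1, h2]

theorem CN2_uniq {V E : Type} [Fintype E] (s t : E → V) {q : ℕ} (g : E → ZMod q)
    (e : E) (S0 : Set V) (hs : s e ∈ S0) (ht : t e ∉ S0)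
    (hg : g e = 0) (c : ZMod q) (h : CN2_X s t (Function.update g e c) S0 = 0) :
    c = CN2_X s t g S0 := by
  rw [CN2_update s t g e _ hg] at h
  simp only [hs, ht, if_true, if_false, zero_sub] at h
  exact (eq_of_sub_eq_zero (by rw [sub_eq_add_neg]; exact h)).symm

theorem CN2 : CN2_stmt := by
  intro V E _ _ s t q A B e hq heA hLp
  have : NeZero q := ⟨by omega⟩
  obtain ⟨S0, hS0, hs, ht⟩ : ∃ S0 : Set V, Cl s t B S0 ∧ s e ∈ S0 ∧ t e ∉ S0 := by
    unfold Lp at hLp
    push Not at hLp
    obtain ⟨S, hS, hne⟩ := hLp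
    rcases hne with ⟨h1, h2⟩ | ⟨h1, h2⟩
    · exact ⟨S, hS, h1, h2⟩
    · exact ⟨Sᶜ, CN2_cl_compl _ _ _ _ hS, by simpa using h1, by simpa using h2⟩
  -- supports
  have supp1 : ∀ f : E → ZMod q, (∀ e', f e' ≠ 0 ↔ e' ∈ A) →
      ∀ e', Function.update f e 0 e' ≠ 0 ↔ e' ∈ A.erase e := by
    intro f hf e'
    by_cases he : e' = e
    · subst he; simp
    · rw [Function.update_of_ne he, hf e', mem_erase]
      simp [he]
  have supp2 : ∀ (g : E → ZMod q) (c : ZMod q), (∀ e', g e' ≠ 0 ↔ e' ∈ A.erase e) → c ≠ 0 →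
      ∀ e', Function.update g e c e' ≠ 0 ↔ e' ∈ A := by
    intro g c hg hc e'
    by_cases he : e' = e
    · subst he; simp [hc, heA]
    · rw [Function.update_of_ne he, hg e', mem_erase]
      simp [he]
  have gz : ∀ (g : E → ZMod q), (∀ e', g e' ≠ 0 ↔ e' ∈ A.erase e) → g e = 0 := by
    intro g hg
    by_contra h
    exact (mem_erase.mp ((hg e).mp h)).1 rfl
  have upd : ∀ f : E → ZMod q, Function.update (Function.update f e 0) e (f e) = f := by
    intro f
    rw [Function.update_idem, Function.update_eq_self]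
  have toL : ∀ f : E → ZMod q, IsF s t q A B f →
      IsF s t q (A.erase e) (insert e B) (Function.update f e 0) := by
    intro f hf
    rw [CN2_iff s t _ _ _ (supp1 f hf.1)]
    intro S hS
    obtain ⟨h1, h2⟩ := CN2_cl_sub _ _ _ _ _ hS
    have h3 := (CN2_iff s t f A B hf.1).mp hf S h1
    rw [← upd f, CN2_update s t (Function.update f e 0) e (f e) (by simp)] at h3
    by_cases h4 : s e ∈ S
    · have h5 := h2.mp h4
      simpa [h4, h5] using h3
    · have h5 : t e ∉ S := fun h => h4 (h2.mpr h)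
      simpa [h4, h5] using h3
  have toR : ∀ f : E → ZMod q, IsF s t q (A.erase e) B f →
      IsF s t q (A.erase e) (insert e B) f := by
    intro f hf
    exact ⟨hf.1, fun S hS => hf.2 S (CN2_cl_sub _ _ _ _ _ hS).1⟩
  unfold N
  rw [← Nat.card_sum]
  apply Nat.card_congr
  refine Equiv.ofBijective (Sum.elim (fun f => ⟨Function.update f.1 e 0, toL f.1 f.2⟩)
    (fun f => ⟨f.1, toR f.1 f.2⟩)) ⟨?_, ?_⟩
  · have huniq : ∀ f : E → ZMod q, IsF s t q A B f →
        f e = CN2_X s t (Function.update f e 0) S0 := by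
      intro f hf
      apply CN2_uniq s t _ e S0 hs ht (by simp)
      rw [upd f]
      exact (CN2_iff s t f A B hf.1).mp hf S0 hS0
    rintro (⟨f, hf⟩ | ⟨f, hf⟩) (⟨f', hf'⟩ | ⟨f', hf'⟩) h
    · simp only [Sum.elim_inl, Subtype.mk.injEq] at h
      have h1 := huniq f hf
      have h2 := huniq f' hf'
      have h3 : f = f' := by
        rw [← upd f, ← upd f', h1, h2, h]
      subst h3
      rfl
    · exfalso
      simp only [Sum.elim_inl, Sum.elim_inr, Subtype.mk.injEq] at h
      have h1 := huniq f hf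
      rw [h, (CN2_iff s t f' (A.erase e) B hf'.1).mp hf' S0 hS0] at h1
      exact (hf.1 e).mpr heA h1
    · exfalso
      simp only [Sum.elim_inl, Sum.elim_inr, Subtype.mk.injEq] at h
      have h1 := huniq f' hf'
      rw [← h, (CN2_iff s t f (A.erase e) B hf.1).mp hf S0 hS0] at h1
      exact (hf'.1 e).mpr heA h1
    · simp only [Sum.elim_inr, Subtype.mk.injEq] at h
      subst h
      rfl
  · rintro ⟨g, hg⟩
    have hge := gz g hg.1
    have hflow := (CN2_iff s t g (A.erase e) (insert e B) hg.1).mp hg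
    have hext := CN2_ext s t g B e S0 hS0 hs ht hge hflow
    by_cases hc : CN2_X s t g S0 = 0
    · rw [hc] at hext
      have hgg : Function.update g e 0 = g := by
        rw [← hge]; exact Function.update_eq_self e g
      rw [hgg] at hext
      refine ⟨Sum.inr ⟨g, (CN2_iff s t g (A.erase e) B hg.1).mpr hext⟩, rfl⟩
    · refine ⟨Sum.inl ⟨Function.update g e (CN2_X s t g S0),
        (CN2_iff s t _ A B (supp2 g _ hg.1 hc)).mpr hext⟩, ?_⟩
      simp only [Sum.elim_inl, Subtype.mk.injEq]
      rw [Function.update_idem, ← hge]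
      exact Function.update_eq_self e g

end Pool.Agent.helper90.FL
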